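import Pool.Agent.K1H49.PL.Gen

set_option autoImplicit false

/-! PLG-COL: dense colours on the tree of binary sequences. -/

namespace Pool.Agent.K1H29.PLG

open Pool.Agent.K1H49.PL

section

variable {C Λ : Type} [LinearOrder Λ]

theorem tlt_trans {d d' : Bool} {a b c : TI Λ} (h : tlt Λ d a b) (h' : tlt Λ d' b c) :
    tlt Λ d a c := by
  obtain ⟨h1, h2, h3⟩ := h
  obtain ⟨k1, k2, _⟩ := h'
  exact ⟨h1.trans k1, fun x hx => (k2 x (hx.trans h1)).trans (h2 x hx), (k2 _ h1).trans h3⟩

/-- the strict order -/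
def Lt (p q : TI Λ) : Prop := ∃ d, tlt Λ d p q

theorem Lt.trans {a b c : TI Λ} (h : Lt a b) (h' : Lt b c) : Lt a c := by
  obtain ⟨d, h⟩ := h
  obtain ⟨d', h'⟩ := h'
  exact ⟨d, tlt_trans h h'⟩

theorem Lt.lev {a b : TI Λ} (h : Lt a b) : a.1.1 < b.1.1 := by
  obtain ⟨d, h⟩ := h
  exact h.1

theorem Lt.agree {a b : TI Λ} (h : Lt a b) : ∀ x, x < a.1.1 → b.1.2 x = a.1.2 x := by
  obtain ⟨d, h⟩ := h
  exact h.2.1

/-- killed colours -/
def KK (f : TI Λ → C) (p : TI Λ) : Set C := {c | ∀ q, (q = p ∨ Lt p q) → f q ≠ c}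

theorem KK_mono {f : TI Λ → C} {p q : TI Λ} (h : Lt p q) : KK f p ⊆ KK f q := by
  intro c hc s hs
  apply hc s
  right
  rcases hs with rfl | hs
  · exact h
  · exact h.trans hs

/-- the relation for Zorn's lemma -/
def Rr (f : TI Λ → C) (p q : TI Λ) : Prop := p = q ∨ (Lt p q ∧ KK f p ⊂ KK f q)

theorem Rr_trans {f : TI Λ → C} {a b c : TI Λ} (h : Rr f a b) (h' : Rr f b c) : Rr f a c := by
  rcases h with rfl | h
  · exact h'
  rcases h' with rfl | h'
  · exact Or.inr h
  · exact Or.inr ⟨h.1.trans h'.1, h.2.trans h'.2⟩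

open Classical in
theorem chain_bdd [WellFoundedLT Λ] [Nonempty Λ] (hC : ∀ g : C → Λ, ∃ b, ∀ c, g c < b)
    (f : TI Λ → C) (Ch : Set (TI Λ)) (hCh : IsChain (Rr f) Ch) :
    ∃ ub, ∀ a ∈ Ch, Rr f a ub := by
  by_cases hmax : ∃ m, ∀ a ∈ Ch, Rr f a m
  · exact hmax
  push Not at hmax
  have hnext : ∀ p ∈ Ch, ∃ p' ∈ Ch, Lt p p' ∧ KK f p ⊂ KK f p' := by
    intro p hp
    obtain ⟨p', hp', hn⟩ := hmax p
    have hne : p ≠ p' := by
      rintro rfl
      exact hn (Or.inl rfl)
    rcases hCh hp hp' hne with h | h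
    · rcases h with h | h
      · exact absurd h hne
      · exact ⟨p', hp', h⟩
    · exact absurd h hn
  -- the levels are bounded
  let P : C → Λ → Prop := fun c l => ∃ p ∈ Ch, c ∈ KK f p ∧ p.1.1 = l
  let g : C → Λ := fun c => if h : ∃ l, P c l then WellFounded.min wellFounded_lt {l | P c l} h
    else Classical.arbitrary Λ
  obtain ⟨b, hb⟩ := hC g
  have hlev : ∀ p ∈ Ch, p.1.1 < b := by
    intro p hp
    obtain ⟨p', hp', hlt, hss⟩ := hnext p hp
    obtain ⟨c, hc', hc⟩ := Set.exists_of_ssubset hss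
    have hex : ∃ l, P c l := ⟨_, p', hp', hc', rfl⟩
    have hg : P c (g c) := by
      simp only [g, dif_pos hex]
      exact WellFounded.min_mem wellFounded_lt {l | P c l} hex
    obtain ⟨s, hs, hcs, hsl⟩ := hg
    have hps : p.1.1 < s.1.1 := by
      by_cases he : p = s
      · subst he
        exact absurd hcs hc
      rcases hCh hp hs he with h | h
      · rcases h with h | h
        · exact absurd h he
        · exact h.1.lev
      · rcases h with h | h
        · exact absurd h.symm he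
        · exact absurd (h.2.1 hcs) hc
    exact hps.trans (hsl ▸ hb c)
  let hh : Λ → Bool := fun x => if h : ∃ q ∈ Ch, x < q.1.1 then (Classical.choose h).1.2 x
    else false
  have hh0 : ∀ x, b ≤ x → hh x = false := by
    intro x hx
    have : ¬ ∃ q ∈ Ch, x < q.1.1 := by
      rintro ⟨q, hq, hxq⟩
      exact absurd (hxq.trans (hlev q hq)) (not_lt.mpr hx)
    simp only [hh, dif_neg this]
  have hh1 : ∀ p ∈ Ch, ∀ x, x < p.1.1 → hh x = p.1.2 x := by
    intro p hp x hx
    have hex : ∃ q ∈ Ch, x < q.1.1 := ⟨p, hp, hx⟩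
    have hq := Classical.choose_spec hex
    have e : hh x = (Classical.choose hex).1.2 x := by simp only [hh, dif_pos hex]
    rw [e]
    obtain ⟨hq1, hq2⟩ := hq
    generalize Classical.choose hex = q at hq1 hq2
    by_cases he : p = q
    · rw [he]
    rcases hCh hp hq1 he with h | h
    · rcases h with h | h
      · exact absurd h he
      · exact h.1.agree x hx
    · rcases h with h | h
      · exact absurd h.symm he
      · exact (h.1.agree x hq2).symm
  let ub : TI Λ := ⟨(b, hh), hh0⟩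
  have hub : ∀ p ∈ Ch, Lt p ub := fun p hp =>
    ⟨hh p.1.1, hlev p hp, fun x hx => hh1 p hp x hx, rfl⟩
  refine ⟨ub, fun p hp => Or.inr ⟨hub p hp, ?_⟩⟩
  obtain ⟨p', hp', _, hss⟩ := hnext p hp
  exact hss.trans_subset (KK_mono (hub p' hp'))

/-- immediate successors -/
theorem succ_ex [NoMaxOrder Λ] (q : TI Λ) (d : Bool) : ∃ s : TI Λ, tlt Λ d q s := by
  classical
  obtain ⟨b, hb⟩ := exists_gt q.1.1
  refine ⟨⟨(b, fun x => if x < q.1.1 then q.1.2 x else if x = q.1.1 then d else false), ?_⟩, ?_⟩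
  · intro x hx
    have h1 : ¬ x < q.1.1 := not_lt.mpr (hb.le.trans hx)
    have h2 : ¬ x = q.1.1 := by
      rintro rfl
      exact absurd hb (not_lt.mpr hx)
    simp only [if_neg h1, if_neg h2]
  · refine ⟨hb, fun x hx => ?_, ?_⟩
    · simp only [if_pos hx]
    · simp only [lt_irrefl, if_false, if_true]

end

theorem t_COL : S_COL := by
  intro C Λ _ _ _ _ hC f
  obtain ⟨m, hm⟩ := exists_maximal_of_chains_bounded (r := Rr f)
    (fun Ch hCh => chain_bdd hC f Ch hCh) (fun h h' => Rr_trans h h')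
  have hK : ∀ q, Lt m q → KK f q ⊆ KK f m := by
    intro q hq
    by_contra hn
    have hr : Rr f m q := Or.inr ⟨hq, KK_mono hq, hn⟩
    rcases hm q hr with h | h
    · rw [h] at hq
      exact absurd hq.lev (lt_irrefl _)
    · exact absurd (hq.lev.trans h.1.lev) (lt_irrefl _)
  have hcm : f m ∉ KK f m := fun h => h m (Or.inl rfl) rfl
  have hden : ∀ q, (q = m ∨ Lt m q) → ∃ q', (q' = q ∨ Lt q q') ∧ f q' = f m := by
    intro q hq
    have hn : f m ∉ KK f q := by
      rcases hq with rfl | hq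
      · exact hcm
      · exact fun h => hcm (hK q hq h)
    by_contra hcon
    push Not at hcon
    exact hn fun s hs => hcon s hs
  have hnx : ∀ (q : {q : TI Λ // q = m ∨ Lt m q}) (d : Bool),
      ∃ q' : {q : TI Λ // q = m ∨ Lt m q}, tlt Λ d q.1 q'.1 ∧ f q'.1 = f m := by
    rintro ⟨q, hq⟩ d
    obtain ⟨s, hs⟩ := succ_ex q d
    have hms : Lt m s := by
      rcases hq with rfl | hq
      · exact ⟨d, hs⟩
      · exact hq.trans ⟨d, hs⟩
    obtain ⟨q', hq', hf⟩ := hden s (Or.inr hms)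
    have ht : tlt Λ d q q' := by
      rcases hq' with rfl | ⟨d', h'⟩
      · exact hs
      · exact tlt_trans hs h'
    have hmq : Lt m q' := by
      rcases hq' with rfl | h'
      · exact hms
      · exact hms.trans h'
    exact ⟨⟨q', Or.inr hmq⟩, ht, hf⟩
  choose nx hnx1 hnx2 using hnx
  let m' : {q : TI Λ // q = m ∨ Lt m q} := ⟨m, Or.inl rfl⟩
  have hup : ∀ (t : List Bool) (d : Bool) (q : TI Λ) (r : {q : TI Λ // q = m ∨ Lt m q}),
      tlt Λ d q r.1 → tlt Λ d q (t.foldl nx r).1 := by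
    intro t
    induction t with
    | nil => intro d q r h; exact h
    | cons e t ih =>
      intro d q r h
      exact ih d q (nx r e) (tlt_trans h (hnx1 r e))
  have hcol : ∀ (t : List Bool) (r : {q : TI Λ // q = m ∨ Lt m q}),
      f r.1 = f m → f (t.foldl nx r).1 = f m := by
    intro t
    induction t with
    | nil => intro r h; exact h
    | cons e t ih =>
      intro r _
      exact ih (nx r e) (hnx2 r e)
  refine ⟨fun π => (List.foldl nx m' π).1, ?_, f m, fun π => hcol π m' rfl⟩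
  rintro π π' d ⟨t, rfl⟩
  show tlt Λ d (List.foldl nx m' π).1 (List.foldl nx m' (π ++ [d] ++ t)).1
  rw [List.foldl_append, List.foldl_append]
  exact hup t d _ _ (hnx1 _ d)

end Pool.Agent.K1H29.PLG
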